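import Pool.Agent.FU3.Stmts

/-!
Squad FU3, row ENP: the code of a restriction extends it and has `s` stars less.
-/

set_option autoImplicit false

open Finset

namespace Pool.Agent.FU3.H28

open Pool.Agent.FUR Pool.Agent.FU2

/-- Row ENP. -/
theorem enp : ENPStmt := by
  intro N F s r r' h
  induction h with
  | zero r => exact ⟨fun v _ => rfl, rfl⟩
  | @step s r r'' A t C hF hA ht J hJ hJs hall π h ih =>
    obtain ⟨h1, h2⟩ := ih
    constructor
    · intro v hv
      have hvJ : v ∉ J := fun hm => hv (hJs v hm).2
      have h3 : put J (fun v => some (π v)) r v = r v := if_neg hvJ
      have h4 := h1 v (by rw [h3]; exact hv)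
      rw [h3] at h4
      have h5 : put J t r'' v = r'' v := if_neg hvJ
      rw [h5, h4]
    · have h3 : stars (put J t r'') = stars r'' := by
        ext v
        simp only [stars, mem_filter, mem_univ, true_and]
        by_cases hvJ : v ∈ J
        · have h5 : put J t r'' v = t v := if_pos hvJ
          have h6 : put J (fun v => some (π v)) r v = some (π v) := if_pos hvJ
          have h7 := h1 v (by rw [h6]; simp)
          rw [h5, h7, h6]
          simp [(hJs v hvJ).1]
        · have h5 : put J t r'' v = r'' v := if_neg hvJ
          rw [h5]
      have h4 : stars (put J (fun v => some (π v)) r) = stars r \ J := by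
        ext v
        simp only [stars, mem_filter, mem_univ, true_and, mem_sdiff]
        by_cases hvJ : v ∈ J
        · have h6 : put J (fun v => some (π v)) r v = some (π v) := if_pos hvJ
          rw [h6]
          simp [hvJ]
        · have h6 : put J (fun v => some (π v)) r v = r v := if_neg hvJ
          rw [h6]
          simp [hvJ]
      have h5 : J ⊆ stars r := by
        intro v hv
        simp only [stars, mem_filter, mem_univ, true_and]
        exact (hJs v hv).2
      have h6 := card_sdiff_add_card_eq_card h5
      rw [h4] at h2
      rw [h3]
      omega

end Pool.Agent.FU3.H28
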